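import Pool.Agent.Helper38.Curl.Rep

/-! Packet C-HB: the Hodge decomposition on balls. -/

open MeasureTheory Set Filter Topology Metric
open scoped ContDiff RealInnerProductSpace
open Pool.Agent.Helper38.Curl

namespace Pool.Agent.Helper40.Curl

/-- The cross product with a fixed right factor, as a continuous linear map. -/
noncomputable def crR (e : E) : E →L[ℝ] E :=
  LinearMap.toContinuousLinearMap
    { toFun := fun a => cr a e
      map_add' := fun a b => cr_add_left a b e
      map_smul' := fun t a => cr_smul_left t a e }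

theorem crR_apply (e a : E) : crR e a = cr a e := rfl

theorem pd_cr {G : E → E} {x : E} (hG : DifferentiableAt ℝ G x) (e : E) (j k : Fin 3) :
    pd (fun y => cr (G y) e) j k x = cr (fderiv ℝ G x (bv j)) e k := by
  unfold pd
  have h : HasFDerivAt (fun y => cr (G y) e) ((crR e).comp (fderiv ℝ G x)) x :=
    (crR e).hasFDerivAt.comp x hG.hasFDerivAt
  rw [h.fderiv]
  rfl

theorem curl_smul_const {φ : E → ℝ} (hφ : ContDiff ℝ ∞ φ) (e : E) :
    curl (fun y => φ y • e) = fun y => cr (gradient φ y) e := by
  funext y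
  have h2 := curl_smul (ζ := φ) (A := fun _ => e) (x := y) ((hφ.differentiable (by simp)) y)
    (differentiableAt_const _)
  rw [h2]
  have h3 : curl (fun _ : E => e) y = 0 := by
    apply ext3 <;> simp [curl, pd]
  rw [h3]
  simp

theorem fderiv_fderiv_apply {φ : E → ℝ} (hφ : ContDiff ℝ ∞ φ) (x u w : E) :
    fderiv ℝ (fun y => fderiv ℝ φ y u) x w = fderiv ℝ (fderiv ℝ φ) x w u := by
  have hd : DifferentiableAt ℝ (fderiv ℝ φ) x :=
    ((hφ.fderiv_right (m := ∞) (by simp)).differentiable (by simp)).differentiableAt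
  have h : HasFDerivAt (fun y => fderiv ℝ φ y u) _ x :=
    hd.hasFDerivAt.clm_apply (hasFDerivAt_const u x)
  rw [h.fderiv]
  simp

/-- `curl curl = grad div - Δ` for fields with one nonzero component. -/
theorem curl_curl {φ : E → ℝ} (hφ : ContDiff ℝ ∞ φ) (i : Fin 3) (x : E) :
    lap φ x • bv i = gradient (fun y => fderiv ℝ φ y (bv i)) x
      - curl (curl (fun y => φ y • bv i)) x := by
  have hs : ∀ v w, fderiv ℝ (fderiv ℝ φ) x v w = fderiv ℝ (fderiv ℝ φ) x w v := by
    intro v w
    refine (hφ.contDiffAt.isSymmSndFDerivAt ?_).eq v w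
    simp only [minSmoothness_of_isRCLikeNormedField]
    exact WithTop.coe_le_coe.2 (le_top : (2 : ℕ∞) ≤ ⊤)
  have hG : DifferentiableAt ℝ (gradient φ) x :=
    ((continuous_gradient hφ).differentiable (by simp)) x
  rw [curl_smul_const hφ]
  have hp : ∀ j m : Fin 3, fderiv ℝ (gradient φ) x (bv j) m
      = fderiv ℝ (fderiv ℝ φ) x (bv j) (bv m) := fun j m => pd_gradient hφ j m x
  have hl : lap φ x = fderiv ℝ (fderiv ℝ φ) x (bv 0) (bv 0) +
      fderiv ℝ (fderiv ℝ φ) x (bv 1) (bv 1) + fderiv ℝ (fderiv ℝ φ) x (bv 2) (bv 2) := by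
    unfold lap
    rw [Fin.sum_univ_three]
    simp only [fderiv_fderiv_apply hφ]
  have s01 := hs (bv 0) (bv 1)
  have s02 := hs (bv 0) (bv 2)
  have s12 := hs (bv 1) (bv 2)
  simp only [bv] at s01 s02 s12
  rw [hl]
  apply ext3
  · simp only [PiLp.sub_apply, PiLp.smul_apply, curl_apply_zero, pd_cr hG, gradient_apply,
      fderiv_fderiv_apply hφ, cr_apply_one, cr_apply_two, hp]
    fin_cases i <;> simp [bv] <;> linarith
  · simp only [PiLp.sub_apply, PiLp.smul_apply, curl_apply_one, pd_cr hG, gradient_apply,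
      fderiv_fderiv_apply hφ, cr_apply_zero, cr_apply_two, hp]
    fin_cases i <;> simp [bv] <;> linarith
  · simp only [PiLp.sub_apply, PiLp.smul_apply, curl_apply_two, pd_cr hG, gradient_apply,
      fderiv_fderiv_apply hφ, cr_apply_zero, cr_apply_one, hp]
    fin_cases i <;> simp [bv] <;> linarith

theorem lap_eq_zero_of_notMem {φ : E → ℝ} {x : E} (h : x ∉ tsupport φ) : lap φ x = 0 := by
  unfold lap
  refine Finset.sum_eq_zero fun i _ => ?_
  have h1 : φ =ᶠ[𝓝 x] fun _ => 0 := notMem_tsupport_iff_eventuallyEq.1 h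
  have h2 : (fun y => fderiv ℝ φ y (bv i)) =ᶠ[𝓝 x] fun _ => 0 := by
    filter_upwards [h1.eventuallyEq_nhds] with y hy
    rw [hy.fderiv_eq]
    simp
  rw [h2.fderiv_eq]
  simp

/-- The partial derivatives of a test function. -/
theorem testFIn_fderiv {U : Set E} {φ : E → ℝ} (h : TestFIn U φ) (u : E) :
    TestFIn U (fun y => fderiv ℝ φ y u) := by
  have hsub : tsupport (fun y => fderiv ℝ φ y u) ⊆ tsupport φ := by
    apply closure_minimal _ (isClosed_tsupport φ)
    intro x hx
    by_contra hc
    apply hx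
    have h1 : φ =ᶠ[𝓝 x] fun _ => 0 := notMem_tsupport_iff_eventuallyEq.1 hc
    change fderiv ℝ φ x u = 0
    rw [h1.fderiv_eq]
    simp
  refine ⟨⟨?_, h.1.2.of_isClosed_subset (isClosed_tsupport _) hsub⟩, hsub.trans h.2⟩
  exact (h.1.1.fderiv_right (m := ∞) (by simp)).clm_apply contDiff_const

theorem testIn_smul {U : Set E} {φ : E → ℝ} (h : TestFIn U φ) (e : E) :
    TestIn U (fun y => φ y • e) := by
  have hsub : tsupport (fun y => φ y • e) ⊆ tsupport φ := by
    apply closure_minimal _ (isClosed_tsupport φ)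
    intro x hx
    by_contra hc
    apply hx
    change φ x • e = 0
    rw [image_eq_zero_of_notMem_tsupport hc, zero_smul]
  exact ⟨⟨h.1.1.smul contDiff_const, h.1.2.of_isClosed_subset (isClosed_tsupport _) hsub⟩,
    hsub.trans h.2⟩

/-- If `G` vanishes off `B`, then the inner product with `v` only sees `v` on `B`. -/
theorem inner_indicator {B : Set E} {v G : E → E} (hG : ∀ x, x ∉ B → G x = 0) (x : E) :
    ⟪v x, G x⟫ = ⟪B.indicator v x, G x⟫ := by
  by_cases hx : x ∈ B
  · rw [indicator_of_mem hx]
  · rw [hG x hx]; simp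

theorem ip_indicator {B : Set E} {v G : E → E} (hG : ∀ x, x ∉ B → G x = 0) :
    ip v G = ip (B.indicator v) G := by
  unfold ip
  exact integral_congr_ae (Eventually.of_forall fun x => inner_indicator hG x)

/-- The projection on the solenoidal fields supported in a closed set. -/
theorem exists_proj {C : Set E} (hC : MeasurableSet C) {f : E → E} (hf : MemLp f 2) :
    ∃ w, Sol C w ∧ ∀ r, Sol C r → ip (fun x => f x - w x) r = 0 := by
  let M : Submodule ℝ (Lp E 2 (volume : Measure E)) :=
    { carrier := {g | ∀ r, Sol C r → ip g r = 0}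
      add_mem' := by
        intro g g' hg hg' r hr
        have h1 : ip (↑(g + g')) r = ip (fun x => g x + g' x) r :=
          ip_congr (Lp.coeFn_add g g') (EventuallyEq.refl _ _)
        rw [h1, ip_add_left (Lp.memLp g) (Lp.memLp g') hr.memLp, hg r hr, hg' r hr, add_zero]
      zero_mem' := by
        intro r hr
        have h1 : ip (↑(0 : Lp E 2 (volume : Measure E))) r = ip (fun _ => 0) r :=
          ip_congr (Lp.coeFn_zero _ _ _) (EventuallyEq.refl _ _)
        rw [h1]
        simp [ip]
      smul_mem' := by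
        intro c g hg r hr
        have h1 : ip (↑(c • g)) r = ip (fun x => c • g x) r :=
          ip_congr (Lp.coeFn_smul c g) (EventuallyEq.refl _ _)
        rw [h1, ip_smul_left, hg r hr, mul_zero] }
  have hsol : ∀ g ∈ Mᗮ, Sol C g := by
    intro g hg
    have hgm := Lp.memLp g
    have hin : ∀ s : E → E, ∀ hs : MemLp s 2, (∀ r, Sol C r → ip s r = 0) → ip s g = 0 := by
      intro s hs h
      have h1 : hs.toLp s ∈ M := by
        intro r hr
        have h2 : ip (↑(hs.toLp s)) r = ip s r :=
          ip_congr hs.coeFn_toLp (EventuallyEq.refl _ _)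
        rw [h2]; exact h r hr
      have h3 := (Submodule.mem_orthogonal M g).1 hg _ h1
      have h4 : ip s g = ⟪hs.toLp s, g⟫ := by
        rw [L2.inner_def]
        apply integral_congr_ae
        filter_upwards [hs.coeFn_toLp] with x h1
        rw [h1]
      rw [h4, h3]
    refine ⟨hgm, ?_, ?_⟩
    · have hi : MemLp (Cᶜ.indicator (g : E → E)) 2 :=
        (memLp_indicator_iff_restrict hC.compl).2 (hgm.restrict _)
      have h1 := hin (Cᶜ.indicator (g : E → E)) hi (by
        intro r hr
        unfold ip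
        have : (fun x => ⟪Cᶜ.indicator (g : E → E) x, r x⟫) =ᵐ[volume] fun _ => (0 : ℝ) := by
          filter_upwards [hr.van] with x hx
          by_cases hc : x ∈ C
          · simp [hc]
          · simp [hx hc]
        rw [integral_congr_ae this]
        simp)
      have h2 : ip (Cᶜ.indicator (g : E → E)) g =
          Pool.Agent.Helper38.Curl.sq (Cᶜ.indicator (g : E → E)) := by
        unfold ip Pool.Agent.Helper38.Curl.sq
        congr 1
        funext x
        by_cases hc : x ∈ C
        · simp [hc]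
        · simp [hc, real_inner_self_eq_norm_sq]
      rw [h2] at h1
      unfold Pool.Agent.Helper38.Curl.sq at h1
      rw [integral_eq_zero_iff_of_nonneg (fun x => by positivity) (integrable_norm_sq hi)] at h1
      filter_upwards [h1] with x hx hc
      have hx' : ‖Cᶜ.indicator (g : E → E) x‖ ^ 2 = 0 := hx
      rw [indicator_of_mem (by exact hc)] at hx'
      exact norm_eq_zero.1 (pow_eq_zero_iff (two_ne_zero) |>.1 hx')
    · intro η hη
      rw [← ip_gradient, ip_comm]
      refine hin _ hη.gradient.memLp ?_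
      intro r hr
      rw [ip_comm, ip_gradient]
      exact hr.divFree η hη
  have hcs : CompleteSpace Mᗮ := Submodule.instOrthogonalCompleteSpace M
  have hop : Mᗮ.HasOrthogonalProjection := Submodule.HasOrthogonalProjection.ofCompleteSpace Mᗮ
  set p := Mᗮ.starProjection (hf.toLp f) with hp
  have hpm : p ∈ Mᗮ := Submodule.starProjection_apply_mem _ _
  refine ⟨p, hsol p hpm, ?_⟩
  intro r hr
  have h1 : hf.toLp f - p ∈ Mᗮᗮ := Submodule.sub_starProjection_mem_orthogonal _
  have hrm : hr.memLp.toLp r ∈ Mᗮ := by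
    rw [Submodule.mem_orthogonal]
    intro g hg
    have h2 := hg r hr
    rw [L2.inner_def]
    refine Eq.trans ?_ h2
    apply integral_congr_ae
    filter_upwards [hr.memLp.coeFn_toLp] with x h1
    rw [h1]
  have h3 := (Submodule.mem_orthogonal _ _).1 h1 _ hrm
  rw [real_inner_comm, L2.inner_def] at h3
  refine Eq.trans ?_ h3
  apply integral_congr_ae
  filter_upwards [hr.memLp.coeFn_toLp, hf.coeFn_toLp, Lp.coeFn_sub (hf.toLp f) p] with x h1 h2 h4
  rw [h1, h4, Pi.sub_apply, h2]

theorem hodge_ball {z : E} {ρ : ℝ} (_hρ : 0 < ρ) {v : E → E}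
    (hv : MemLp v 2 (volume.restrict (ball z ρ))) (hd : DivFreeIn (ball z ρ) v) {α : ℝ}
    (hα : 0 ≤ α) (h : ∀ r, Sol (closedBall z ρ) r → |ip v r| ≤ α * √(sq r)) :
    ∃ w, MemLp w 2 ∧ VanOff (closedBall z ρ) w ∧ sq w ≤ α ^ 2 ∧
      WH (ball z ρ) (fun x => v x - w x) := by
  have hv1 : MemLp ((ball z ρ).indicator v) 2 :=
    (memLp_indicator_iff_restrict measurableSet_ball).2 hv
  obtain ⟨w, hw, hort⟩ := exists_proj (C := closedBall z ρ) measurableSet_closedBall hv1
  have hae : ∀ᵐ x, x ∉ sphere z ρ := by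
    have : (volume : Measure E) (sphere z ρ) = 0 := Measure.addHaar_sphere _ _ _
    exact measure_eq_zero_iff_ae_notMem.1 this
  have hiw : ∀ r, Sol (closedBall z ρ) r → ip ((ball z ρ).indicator v) r = ip v r := by
    intro r hr
    unfold ip
    apply integral_congr_ae
    filter_upwards [hae, hr.van] with x hx hx2
    by_cases hb : x ∈ ball z ρ
    · rw [indicator_of_mem hb]
    · have : x ∉ closedBall z ρ := by
        intro hc
        rw [mem_closedBall] at hc
        rw [mem_ball] at hb
        exact hx (mem_sphere.2 (le_antisymm hc (not_lt.1 hb)))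
      rw [hx2 this]; simp
  have hsq : sq w = ip v w := by
    have h1 := hort w hw
    rw [ip_sub_left hv1 hw.memLp hw.memLp, hiw w hw, ← sq_eq_ip] at h1
    linarith
  refine ⟨w, hw.memLp, hw.van, ?_, ?_⟩
  · have h1 := h w hw
    rw [← hsq, abs_of_nonneg (sq_nonneg' w)] at h1
    have h2 : √(sq w) ≤ α := by
      rcases (Real.sqrt_nonneg (sq w)).eq_or_lt with h0 | h0
      · rw [← h0]; exact hα
      · have h3 : √(sq w) * √(sq w) ≤ α * √(sq w) := by
          rw [Real.mul_self_sqrt (sq_nonneg' w)]; exact h1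
        exact le_of_mul_le_mul_right h3 h0
    calc sq w = √(sq w) ^ 2 := (Real.sq_sqrt (sq_nonneg' w)).symm
      _ ≤ α ^ 2 := pow_le_pow_left₀ (Real.sqrt_nonneg _) h2 2
  · intro φ hφ i
    have hη := testFIn_fderiv hφ (bv i)
    have hF := testIn_smul hφ (bv i)
    have hr : TestIn (ball z ρ) (curl (curl (fun y => φ y • bv i))) := hF.curl.curl
    have hrs : Sol (closedBall z ρ) (curl (curl (fun y => φ y • bv i))) := by
      refine (hF.1.curl.pot).sol ?_
      refine Eventually.of_forall fun x hx => ?_
      exact image_eq_zero_of_notMem_tsupport fun hc => hx (ball_subset_closedBall (hr.2 hc))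
    have hzero : ∀ x, x ∉ ball z ρ → lap φ x • bv i = 0 := by
      intro x hx
      rw [lap_eq_zero_of_notMem fun hc => hx (hφ.2 hc), zero_smul]
    have hint : ∀ x, (v x - w x) i * lap φ x =
        ⟪(ball z ρ).indicator v x - w x, gradient (fun y => fderiv ℝ φ y (bv i)) x -
          curl (curl (fun y => φ y • bv i)) x⟫ := by
      intro x
      rw [← curl_curl hφ.1.1, inner_sub_left, ← inner_indicator hzero, ← inner_sub_left,
        real_inner_smul_right, inner_eq, mul_comm]
      congr 1
      fin_cases i <;> simp [bv]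
    have hG : ∀ x, x ∉ ball z ρ → gradient (fun y => fderiv ℝ φ y (bv i)) x = 0 := by
      intro x hx
      exact image_eq_zero_of_notMem_tsupport fun hc =>
        hx (hη.2 (tsupport_gradient_subset _ hc))
    have hdm : MemLp (fun x => (ball z ρ).indicator v x - w x) 2 := hv1.sub hw.memLp
    have e1 : ∫ x, (v x - w x) i * lap φ x = ip (fun x => (ball z ρ).indicator v x - w x)
        (fun x => gradient (fun y => fderiv ℝ φ y (bv i)) x -
          curl (curl (fun y => φ y • bv i)) x) := by
      unfold ip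
      exact integral_congr_ae (Eventually.of_forall hint)
    rw [e1, ip_sub_right hdm hη.1.gradient.memLp hr.1.memLp, hort _ hrs,
      ip_sub_left hv1 hw.memLp hη.1.gradient.memLp, ← ip_indicator hG, ip_gradient, ip_gradient,
      hd _ hη, hw.divFree _ hη.1]
    ring

end Pool.Agent.Helper40.Curl
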