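import Pool.Agent.Helper38.Curl.Rep

/-! Packet C-K3: the maximizer gives the first positive curl eigenvalue. -/

open MeasureTheory Set Filter Topology Metric
open scoped ContDiff RealInnerProductSpace
open Pool.Agent.Helper38.Curl

namespace Pool.Agent.Helper40.Curl

/-- The statement of `pot_symm`. -/
def SPS : Prop := ∀ {a v b w : E → E}, Pot a v → Pot b w → ip v b = ip a w

/-- The statement of `pot_exists`. -/
def SPE : Prop := ∀ {c : E} {ρ : ℝ}, 0 < ρ → ∀ {v : E → E}, Sol (closedBall c ρ) v →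
    ∃ a, Pot a v ∧ VanOff (closedBall c ρ) a ∧
      Pool.Agent.Helper38.Curl.sq a ≤ 4 * ρ ^ 2 * Pool.Agent.Helper38.Curl.sq v

/-- Approximable by curls of test fields. -/
def InM (Ω : Set E) (w : E → E) : Prop :=
  ∀ ε, 0 < ε → ∃ A, TestIn Ω A ∧ Pool.Agent.Helper38.Curl.sq (fun x => curl A x - w x) < ε

theorem InM.ex {Ω : Set E} {w : E → E} (h : InM Ω w) {ε : ℝ} (hε : 0 < ε) :
    ∃ A, TestIn Ω A ∧ √(Pool.Agent.Helper38.Curl.sq (fun x => curl A x - w x)) < ε := by
  obtain ⟨A, hA, hlt⟩ := h (ε ^ 2) (by positivity)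
  exact ⟨A, hA, (Real.sqrt_lt' hε).2 hlt⟩

/-- A field orthogonal to all curls is orthogonal to their limits. -/
theorem InM.ip_eq_zero {Ω : Set E} {w g : E → E} (h : InM Ω w) (hw : MemLp w 2) (hg : MemLp g 2)
    (hz : ∀ A, TestIn Ω A → ip g (curl A) = 0) : ip g w = 0 := by
  by_contra hne
  have hpos : 0 < |ip g w| := abs_pos.2 hne
  have hK : 0 < √(Pool.Agent.Helper38.Curl.sq g) + 1 := by positivity
  obtain ⟨A, hA, hlt⟩ := h.ex (div_pos hpos hK)
  have h1 : ip g (fun x => curl A x - w x) = - ip g w := by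
    rw [ip_sub_right hg hA.1.curl.memLp hw, hz A hA]; ring
  have h2 := abs_ip_le hg (hA.1.curl.memLp.sub hw)
  have h3 : |ip g (curl A - w)| = |ip g w| := by
    have : ip g (curl A - w) = ip g (fun x => curl A x - w x) := rfl
    rw [this, h1, abs_neg]
  rw [h3] at h2
  have h4 : √(Pool.Agent.Helper38.Curl.sq g) *
      √(Pool.Agent.Helper38.Curl.sq (fun x => curl A x - w x)) <
      |ip g w| := by
    have h5 := Real.sqrt_nonneg (Pool.Agent.Helper38.Curl.sq g)
    have h6 := Real.sqrt_nonneg (Pool.Agent.Helper38.Curl.sq (fun x => curl A x - w x))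
    rw [lt_div_iff₀ hK] at hlt
    nlinarith
  exact absurd h2 (not_le.2 h4)

theorem curl_add_smul {A B : E → E} (hA : Test A) (hB : Test B) (t : ℝ) :
    curl (fun x => A x + t • B x) = fun x => curl A x + t • curl B x := by
  funext x
  have dA : DifferentiableAt ℝ A x := (hA.1.differentiable (by simp)) x
  have dB : DifferentiableAt ℝ B x := (hB.1.differentiable (by simp)) x
  rw [curl_add (B := fun x => t • B x) dA (dB.const_smul t), curl_const_smul dB]

theorem TestIn.add_smul {Ω : Set E} {A B : E → E} (hA : TestIn Ω A) (hB : TestIn Ω B) (t : ℝ) :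
    TestIn Ω (fun x => A x + t • B x) := by
  have hsub : tsupport (fun x => A x + t • B x) ⊆ tsupport A ∪ tsupport B := by
    apply closure_minimal _ ((isClosed_tsupport A).union (isClosed_tsupport B))
    intro x hx
    by_contra hc
    rw [mem_union, not_or] at hc
    apply hx
    change A x + t • B x = 0
    rw [image_eq_zero_of_notMem_tsupport hc.1, image_eq_zero_of_notMem_tsupport hc.2]
    simp
  have hts : ContDiff ℝ ∞ (fun x => t • B x) := hB.1.1.const_smul t
  refine ⟨⟨hA.1.1.add hts, ?_⟩, hsub.trans (union_subset hA.2 hB.2)⟩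
  exact (hA.1.2.isCompact.union hB.1.2.isCompact).of_isClosed_subset (isClosed_tsupport _) hsub

theorem InM.add_smul {Ω : Set E} {w : E → E} (h : InM Ω w) {A : E → E} (hA : TestIn Ω A) (t : ℝ) :
    InM Ω (fun x => w x + t • curl A x) := by
  intro ε hε
  obtain ⟨B, hB, hlt⟩ := h ε hε
  refine ⟨_, TestIn.add_smul hB hA t, ?_⟩
  rw [curl_add_smul hB.1 hA.1]
  have : (fun x => curl B x + t • curl A x - (w x + t • curl A x)) = fun x => curl B x - w x := by
    funext x; abel
  rw [this]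
  exact hlt

theorem coef_zero {p q : ℝ} (h : ∀ t : ℝ, 2 * t * p + t ^ 2 * q ≤ 0) : p = 0 := by
  by_contra hp
  have hq : 0 < |q| + 1 := by positivity
  have h1 := h (p / (|q| + 1))
  have h2 : 2 * (p / (|q| + 1)) * p + (p / (|q| + 1)) ^ 2 * q
      = p ^ 2 / (|q| + 1) ^ 2 * (2 * (|q| + 1) + q) := by
    field_simp
  rw [h2] at h1
  have h3 : 0 < p ^ 2 / (|q| + 1) ^ 2 := by positivity
  have h4 : 0 < 2 * (|q| + 1) + q := by
    have := neg_abs_le q
    have := abs_nonneg q
    linarith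
  have := mul_pos h3 h4
  linarith

/-- The quotient bound passes to limits of curls. -/
theorem hel_le (hPS : SPS) (hPE : SPE) {Ω : Set E} {Λ : ℝ}
    (hmax : ∀ A, TestIn Ω A → ip (curl A) A ≤ Λ * Pool.Agent.Helper38.Curl.sq (curl A))
    (hΛ : 0 < Λ) {w b : E → E} (hp : Pot b w) (hM : InM Ω w) (hb : Bornology.IsBounded Ω) :
    ip w b ≤ Λ * Pool.Agent.Helper38.Curl.sq w := by
  obtain ⟨R₁, hR₁⟩ := hb.subset_closedBall 0
  obtain ⟨R₂, hR₂, hR₂'⟩ := hp.bdd
  set R := max (max R₁ R₂) 1 with hR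
  have hRpos : 0 < R := lt_of_lt_of_le one_pos (le_max_right _ _)
  set s := √(Pool.Agent.Helper38.Curl.sq w) with hs
  set K1 := 2 * Λ * s + 2 * R * s + √(Pool.Agent.Helper38.Curl.sq b) with hK1
  set K2 := Λ + 2 * R with hK2
  have key : ∀ ε : ℝ, 0 < ε → ip w b ≤ Λ * Pool.Agent.Helper38.Curl.sq w + (K1 * ε + K2 * ε ^ 2) := by
    intro ε hε
    obtain ⟨A, hA, hlt⟩ := hM.ex hε
    set d : E → E := fun x => curl A x - w x with hd
    have hpd : Pot (fun x => A x - b x) d := hA.1.pot.sub hp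
    have hvan : VanOff (closedBall 0 R) d := by
      refine VanOff.sub (Eventually.of_forall fun x hx => ?_) (hR₂'.mono ?_)
      · refine curl_eq_zero_of_notMem fun hc => hx ?_
        exact closedBall_subset_closedBall ((le_max_left _ _).trans (le_max_left _ _)) (hR₁ (hA.2 hc))
      · exact closedBall_subset_closedBall ((le_max_right _ _).trans (le_max_left _ _))
    obtain ⟨b', hb', -, hsq⟩ := hPE hRpos (hpd.sol hvan)
    have hsum : Pot (fun x => b x + b' x) (curl A) := by
      have := hp.add hb'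
      have e : (fun x => w x + d x) = curl A := by
        funext x
        simp [hd]
      rw [e] at this
      exact this
    have h1 : ip (curl A) A = ip (curl A) (fun x => b x + b' x) := by
      rw [hPS hA.1.pot hsum, ip_comm]
    have hdm : MemLp d 2 := hb'.memLp₂
    have e : curl A = (fun x => w x + d x) := by
      funext x
      simp [hd]
    have h2 : ip (curl A) (fun x => b x + b' x) = ip w b + ip w b' + (ip d b + ip d b') := by
      have hbb : MemLp (fun x => b x + b' x) 2 := hp.memLp₁.add hb'.memLp₁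
      rw [e, ip_add_left hp.memLp₂ hdm hbb,
        ip_add_right hp.memLp₂ hp.memLp₁ hb'.memLp₁, ip_add_right hdm hp.memLp₁ hb'.memLp₁]
    have h3 : Pool.Agent.Helper38.Curl.sq (curl A) =
        Pool.Agent.Helper38.Curl.sq w + 2 * ip w d + Pool.Agent.Helper38.Curl.sq d := by
      rw [e, sq_add hp.memLp₂ hdm]
    have h4 := hmax A hA
    rw [h1, h2, h3] at h4
    have hsd0 : 0 ≤ √(Pool.Agent.Helper38.Curl.sq d) := Real.sqrt_nonneg _
    set δ := √(Pool.Agent.Helper38.Curl.sq d) with hδ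
    have hsdδ : Pool.Agent.Helper38.Curl.sq d = δ ^ 2 := (Real.sq_sqrt (sq_nonneg' d)).symm
    have hb'2 : √(Pool.Agent.Helper38.Curl.sq b') ≤ 2 * R * δ := by
      rw [Real.sqrt_le_left (by positivity)]
      calc _ ≤ _ := hsq
        _ = (2 * R * δ) ^ 2 := by rw [hsdδ]; ring
    have a1 := abs_le.1 (abs_ip_le hp.memLp₂ hdm)
    have a2 := abs_le.1 (abs_ip_le hp.memLp₂ hb'.memLp₁)
    have a3 := abs_le.1 (abs_ip_le hdm hp.memLp₁)
    have a4 := abs_le.1 (abs_ip_le hdm hb'.memLp₁)
    rw [← hs, ← hδ] at a1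
    rw [← hs] at a2
    rw [← hδ] at a3 a4
    have hs0 : 0 ≤ s := Real.sqrt_nonneg _
    have hbb0 : 0 ≤ √(Pool.Agent.Helper38.Curl.sq b) := Real.sqrt_nonneg _
    have a2' : s * √(Pool.Agent.Helper38.Curl.sq b') ≤ s * (2 * R * δ) :=
      mul_le_mul_of_nonneg_left hb'2 hs0
    have a4' : δ * √(Pool.Agent.Helper38.Curl.sq b') ≤ δ * (2 * R * δ) :=
      mul_le_mul_of_nonneg_left hb'2 hsd0
    have hδε : δ ≤ ε := hlt.le
    have h5 : ip w b ≤ Λ * Pool.Agent.Helper38.Curl.sq w + (K1 * δ + K2 * δ ^ 2) := by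
      have a1' : Λ * (2 * ip w d) ≤ Λ * (2 * (s * δ)) := by
        apply mul_le_mul_of_nonneg_left _ hΛ.le
        linarith [a1.2]
      rw [hsdδ] at h4
      rw [hK1, hK2]
      nlinarith [a2.1, a3.1, a4.1]
    have hK1' : 0 ≤ K1 := by positivity
    have hK2' : 0 ≤ K2 := by positivity
    have h6 : K1 * δ ≤ K1 * ε := mul_le_mul_of_nonneg_left hδε hK1'
    have h7 : K2 * δ ^ 2 ≤ K2 * ε ^ 2 :=
      mul_le_mul_of_nonneg_left (pow_le_pow_left₀ hsd0 hδε 2) hK2'
    linarith
  have hlim : Tendsto (fun ε : ℝ => Λ * Pool.Agent.Helper38.Curl.sq w + (K1 * ε + K2 * ε ^ 2))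
      (𝓝[>] 0) (𝓝 (Λ * Pool.Agent.Helper38.Curl.sq w + (K1 * 0 + K2 * 0 ^ 2))) := by
    apply Tendsto.mono_left _ nhdsWithin_le_nhds
    apply Continuous.tendsto
    fun_prop
  have := ge_of_tendsto hlim (by
    filter_upwards [self_mem_nhdsWithin] with ε hε
    exact key ε hε)
  simpa using this

theorem setIntegral_eq_ip {Ω : Set E} (hm : MeasurableSet Ω) {u X : E → E}
    (hv : ∀ x, x ∉ Ω → u x = 0) : ∫ x in Ω, ⟪u x, X x⟫ = ip u X := by
  unfold ip
  rw [← integral_indicator hm]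
  congr 1
  funext x
  by_cases hx : x ∈ Ω
  · rw [indicator_of_mem hx]
  · rw [indicator_of_notMem hx, hv x hx]; simp

theorem setIntegral_ind {Ω : Set E} (hm : MeasurableSet Ω) (u X : E → E) :
    ∫ x in Ω, ⟪u x, X x⟫ = ip (Ω.indicator u) X := by
  unfold ip
  rw [← integral_indicator hm]
  congr 1
  funext x
  by_cases hx : x ∈ Ω
  · rw [indicator_of_mem hx, indicator_of_mem hx]
  · rw [indicator_of_notMem hx, indicator_of_notMem hx]; simp

theorem isCurlEigenvalue_of_maximizer (hPS : SPS) (hPE : SPE) {Ω : Set E} (ho : IsOpen Ω)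
    (hb : Bornology.IsBounded Ω) {Λ : ℝ} (hΛ : 0 < Λ)
    (hmax : ∀ A, TestIn Ω A → ip (curl A) A ≤ Λ * Pool.Agent.Helper38.Curl.sq (curl A))
    {u a : E → E} (hp : Pot a u) (hv : ∀ x, x ∉ Ω → u x = 0)
    (hs : Pool.Agent.Helper38.Curl.sq u = 3) (hh : ip u a = 3 * Λ) (hK : InM Ω u) :
    IsCurlEigenvalue Ω Λ⁻¹ := by
  have hm := ho.measurableSet
  have hA1 : ∀ A, TestIn Ω A → ip u A = Λ * ip u (curl A) := by
    intro A hA
    have hcA := hA.1.curl.memLp
    have h0 : ∀ t : ℝ, 2 * t * (ip u A - Λ * ip u (curl A)) +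
        t ^ 2 * (ip (curl A) A - Λ * Pool.Agent.Helper38.Curl.sq (curl A)) ≤ 0 := by
      intro t
      have hpt : Pot (fun x => a x + t • A x) (fun x => u x + t • curl A x) :=
        hp.add (hA.1.pot.smul t)
      have h1 := hel_le hPS hPE hmax hΛ hpt (hK.add_smul hA t) hb
      have htc : MemLp (fun x => t • curl A x) 2 := hcA.const_smul t
      have htA : MemLp (fun x => t • A x) 2 := hA.1.memLp.const_smul t
      have haA : MemLp (fun x => a x + t • A x) 2 := hp.memLp₁.add htA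
      rw [ip_add_left hp.memLp₂ htc haA,
        ip_add_right hp.memLp₂ hp.memLp₁ htA, ip_add_right htc hp.memLp₁ htA,
        ip_smul_right, ip_smul_left, ip_smul_left, ip_smul_right, sq_add hp.memLp₂ htc,
        ip_smul_right, sq_smul, hh, hs, hPS hA.1.pot hp, ip_comm A u] at h1
      nlinarith
    have := coef_zero h0
    linarith
  refine ⟨u, hp.memLp₂.restrict _, ?_, ?_, ?_, ?_⟩
  · intro h0
    have h1 : Pool.Agent.Helper38.Curl.sq u = sqOn Ω u :=
      sq_eq_sqOn hm (Eventually.of_forall fun x hx => hv x hx)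
    rw [hs] at h1
    unfold sqOn at h1
    have h2 : ∫ x in Ω, ‖u x‖ ^ 2 = 0 := by
      have : (fun x => ‖u x‖ ^ 2) =ᵐ[volume.restrict Ω] fun _ => (0 : ℝ) := by
        filter_upwards [h0] with x hx
        rw [hx]; simp
      rw [integral_congr_ae this]; simp
    linarith
  · intro A hA
    rw [setIntegral_eq_ip hm hv, setIntegral_eq_ip hm hv, hA1 A hA]
    field_simp
  · intro η hη
    have h1 := hp.divFree η hη
    rw [← h1, ← integral_indicator hm]
    congr 1
    funext x
    by_cases hx : x ∈ Ω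
    · rw [indicator_of_mem hx]
    · rw [indicator_of_notMem hx, hv x hx]; simp
  · intro w hw hc
    have hwi : MemLp (Ω.indicator w) 2 := memLp_ind hm hw
    have h1 : ∫ x in Ω, ⟪u x, w x⟫ = ip (Ω.indicator w) u := by
      rw [← setIntegral_ind hm]
      simp only [real_inner_comm]
    rw [h1]
    refine hK.ip_eq_zero hp.memLp₂ hwi ?_
    intro A hA
    rw [← setIntegral_ind hm]
    exact hc A hA

theorem sq_pos_of_not_ae {Ω : Set E} (hm : MeasurableSet Ω) {u : E → E}
    (hu : MemLp u 2 (volume.restrict Ω)) (h : ¬ (u =ᵐ[volume.restrict Ω] 0)) :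
    0 < Pool.Agent.Helper38.Curl.sq (Ω.indicator u) := by
  rw [← sqOn_eq_sq hm]
  refine lt_of_le_of_ne (sqOn_nonneg Ω u) fun h0 => h ?_
  have h1 : ∫ x in Ω, ‖u x‖ ^ 2 = 0 := h0.symm
  rw [integral_eq_zero_iff_of_nonneg (fun x => by positivity) (integrableOn_norm_sq hu)] at h1
  filter_upwards [h1] with x hx
  have hx' : ‖u x‖ ^ 2 = 0 := hx
  exact norm_eq_zero.1 (pow_eq_zero_iff (two_ne_zero) |>.1 hx')

/-- Curl eigenfields are limits of curls. -/
theorem inM_of_orth {Ω : Set E} (ho : IsOpen Ω) {u : E → E}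
    (hu : MemLp u 2 (volume.restrict Ω))
    (h : ∀ w, MemLp w 2 (volume.restrict Ω) → CurlFreeOn Ω w → ∫ x in Ω, ⟪u x, w x⟫ = 0) :
    InM Ω (Ω.indicator u) := by
  have hm := ho.measurableSet
  have hui : MemLp (Ω.indicator u) 2 := memLp_ind hm hu
  let N : Submodule ℝ (Lp E 2 (volume : Measure E)) :=
    { carrier := {f | ∃ A, TestIn Ω A ∧ (f : E → E) =ᵐ[volume] curl A}
      add_mem' := by
        rintro f g ⟨A, hA, hfA⟩ ⟨B, hB, hgB⟩
        refine ⟨fun x => A x + (1 : ℝ) • B x, TestIn.add_smul hA hB 1, ?_⟩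
        rw [curl_add_smul hA.1 hB.1]
        filter_upwards [Lp.coeFn_add f g, hfA, hgB] with x h1 h2 h3
        rw [h1, Pi.add_apply, h2, h3, one_smul]
      zero_mem' := by
        refine ⟨fun _ => 0, ⟨⟨contDiff_const, HasCompactSupport.zero⟩, ?_⟩, ?_⟩
        · have : tsupport (fun _ : E => (0 : E)) = ∅ := by
            rw [tsupport_eq_empty_iff]; rfl
          rw [this]; exact empty_subset _
        · filter_upwards [Lp.coeFn_zero E 2 (volume : Measure E)] with x hx
          rw [hx]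
          apply ext3 <;> simp [curl, pd]
      smul_mem' := by
        rintro c f ⟨A, hA, hfA⟩
        refine ⟨fun x => (fun _ => 0 : E → E) x + c • A x,
          TestIn.add_smul (Ω := Ω) (A := fun _ => (0 : E)) ?_ hA c, ?_⟩
        · refine ⟨⟨contDiff_const, HasCompactSupport.zero⟩, ?_⟩
          have : tsupport (fun _ : E => (0 : E)) = ∅ := by
            rw [tsupport_eq_empty_iff]; rfl
          rw [this]; exact empty_subset _
        · rw [curl_add_smul (A := fun _ => (0 : E)) ⟨contDiff_const, HasCompactSupport.zero⟩ hA.1]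
          filter_upwards [Lp.coeFn_smul c f, hfA] with x h1 h2
          have h3 : curl (fun _ : E => (0 : E)) x = 0 := by
            apply ext3 <;> simp [curl, pd]
          rw [h1, Pi.smul_apply, h2, h3, zero_add] }
  have hmem : hui.toLp (Ω.indicator u) ∈ Nᗮᗮ := by
    rw [Submodule.mem_orthogonal]
    intro f hf
    have hfc : ∀ A, TestIn Ω A → ip f (curl A) = 0 := by
      intro A hA
      have hAL := hA.1.curl.memLp
      have h1 : hAL.toLp (curl A) ∈ N := ⟨A, hA, hAL.coeFn_toLp⟩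
      have h2 := (Submodule.mem_orthogonal _ _).1 hf _ h1
      rw [L2.inner_def] at h2
      rw [ip_comm]
      refine Eq.trans ?_ h2
      apply integral_congr_ae
      filter_upwards [hAL.coeFn_toLp] with x hx
      rw [hx]
    have hfr : MemLp (f : E → E) 2 (volume.restrict Ω) := (Lp.memLp f).restrict _
    have h3 := h f hfr (by
      intro A hA
      have hz : ∀ x, x ∉ Ω → curl A x = 0 := fun x hx =>
        curl_eq_zero_of_notMem fun hc => hx (hA.2 hc)
      have := setIntegral_eq_ip hm (X := (f : E → E)) hz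
      rw [ip_comm, hfc A hA] at this
      rw [← this]
      simp only [real_inner_comm])
    rw [setIntegral_ind hm] at h3
    rw [real_inner_comm, L2.inner_def]
    refine Eq.trans ?_ h3
    apply integral_congr_ae
    filter_upwards [hui.coeFn_toLp] with x hx
    rw [hx]
  rw [Submodule.orthogonal_orthogonal_eq_closure] at hmem
  intro ε hε
  have hcl : hui.toLp (Ω.indicator u) ∈ closure (N : Set (Lp E 2 (volume : Measure E))) := hmem
  obtain ⟨f, hfN, hdist⟩ := Metric.mem_closure_iff.1 hcl (√ε) (Real.sqrt_pos.2 hε)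
  obtain ⟨A, hA, hfA⟩ := hfN
  refine ⟨A, hA, ?_⟩
  have hAL := hA.1.curl.memLp
  have hdm : MemLp (fun x => curl A x - Ω.indicator u x) 2 := hAL.sub hui
  have e1 : hdm.toLp _ = f - hui.toLp (Ω.indicator u) := by
    have e2 : f = hAL.toLp (curl A) := by
      apply Lp.ext
      exact hfA.trans hAL.coeFn_toLp.symm
    rw [e2]
    rfl
  rw [sq_eq_norm hdm, e1, ← dist_eq_norm, dist_comm]
  calc _ < (√ε) ^ 2 := pow_lt_pow_left₀ hdist dist_nonneg two_ne_zero
    _ = ε := Real.sq_sqrt hε.le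

theorem isMuOne_of_maximizer_of (hPS : SPS) (hPE : SPE) {Ω : Set E} (ho : IsOpen Ω)
    (hb : Bornology.IsBounded Ω) {Λ : ℝ} (hΛ : 0 < Λ)
    (hmax : ∀ A, TestIn Ω A → ip (curl A) A ≤ Λ * Pool.Agent.Helper38.Curl.sq (curl A))
    {u a : E → E} (hp : Pot a u) (hv : ∀ x, x ∉ Ω → u x = 0)
    (hs : Pool.Agent.Helper38.Curl.sq u = 3) (hh : ip u a = 3 * Λ)
    (hK : ∀ ε, 0 < ε → ∃ A, TestIn Ω A ∧
      Pool.Agent.Helper38.Curl.sq (fun x => curl A x - u x) < ε) :
    IsMuOne Ω Λ⁻¹ := by
  have hm := ho.measurableSet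
  refine ⟨⟨inv_pos.2 hΛ, isCurlEigenvalue_of_maximizer hPS hPE ho hb hΛ hmax hp hv hs hh hK⟩, ?_⟩
  rintro μ ⟨hμ, u', hu', hne, heig, hdiv, horth⟩
  have hM := inM_of_orth ho hu' horth
  have hui : MemLp (Ω.indicator u') 2 := memLp_ind hm hu'
  obtain ⟨R₁, hR₁⟩ := hb.subset_closedBall 0
  have hRpos : 0 < max R₁ 1 := lt_of_lt_of_le one_pos (le_max_right _ _)
  have hsol : Sol (closedBall 0 (max R₁ 1)) (Ω.indicator u') := by
    refine ⟨hui, ?_, ?_⟩
    · refine Eventually.of_forall fun x hx => indicator_of_notMem (fun hc => hx ?_) _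
      exact closedBall_subset_closedBall (le_max_left _ _) (hR₁ hc)
    · intro η hη
      rw [← hdiv η hη, ← integral_indicator hm]
      congr 1
      funext x
      by_cases hx : x ∈ Ω
      · rw [indicator_of_mem hx, indicator_of_mem hx]
      · rw [indicator_of_notMem hx, indicator_of_notMem hx]; simp
  obtain ⟨a', ha', -, -⟩ := hPE hRpos hsol
  have hpos := sq_pos_of_not_ae hm hu' hne
  have hμa : MemLp (fun x => μ • a' x) 2 := ha'.memLp₁.const_smul μ
  have h1 : ip (fun x => Ω.indicator u' x - μ • a' x) (Ω.indicator u') = 0 := by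
    refine hM.ip_eq_zero hui (hui.sub hμa) ?_
    intro A hA
    rw [ip_sub_left hui hμa hA.1.curl.memLp, ip_smul_left, ha'.weak A hA.1,
      ← setIntegral_ind hm, ← setIntegral_ind hm, heig A hA, sub_self]
  rw [ip_sub_left hui hμa hui, ip_smul_left, ← sq_eq_ip, ip_comm a'] at h1
  have h2 := hel_le hPS hPE hmax hΛ ha' hM hb
  have h3 : Pool.Agent.Helper38.Curl.sq (Ω.indicator u') ≤
      μ * (Λ * Pool.Agent.Helper38.Curl.sq (Ω.indicator u')) := by
    have := mul_le_mul_of_nonneg_left h2 hμ.le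
    linarith
  have h4 : 1 ≤ μ * Λ := by
    by_contra hlt
    push Not at hlt
    nlinarith
  rw [inv_le_iff_one_le_mul₀ hΛ]
  exact h4

end Pool.Agent.Helper40.Curl
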