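import Pool.Agent.Helper38.Curl.Rep
import Pool.Agent.Helper94.Curl.MollA

/-! Packet C-KC: the curl of a mollification; symmetry of the helicity form. -/

open MeasureTheory Set Filter Topology Metric
open scoped ContDiff RealInnerProductSpace
open Pool.Agent.Helper38.Curl
open Pool.Agent.Helper94.Curl

namespace Pool.Agent.Helper40.Curl

theorem kap_cpt {r : ℝ} (hr : 0 < r) : HasCompactSupport (kap r) := by
  refine HasCompactSupport.of_support_subset_isCompact (isCompact_closedBall (0 : E) r) ?_
  intro y hy
  rw [mem_closedBall, dist_zero_right]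
  by_contra h
  exact hy (kap_eq_zero hr (not_le.1 h).le)

theorem mol_eq_conv (r : ℝ) (v : E → E) :
    mol r v = (MeasureTheory.convolution (kap r) v (ContinuousLinearMap.lsmul ℝ ℝ) volume) := by
  funext x
  rw [convolution_eq_swap]
  rfl

/-- The derivative of a mollification. -/
theorem hasFDerivAt_mol {a : E → E} (ha : LocallyIntegrable a) {r : ℝ} (hr : 0 < r) (x : E) :
    HasFDerivAt (mol r a) ((MeasureTheory.convolution (fderiv ℝ (kap r)) a
      ((ContinuousLinearMap.lsmul ℝ ℝ).precompL E) volume) x) x := by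
  rw [mol_eq_conv]
  exact (kap_cpt hr).hasFDerivAt_convolution_left (ContinuousLinearMap.lsmul ℝ ℝ)
    ((kap_contDiff hr).of_le (by simp)) ha x

theorem integrable_smul_kap {v : E → E} (hv : LocallyIntegrable v) {r : ℝ} (hr : 0 < r) (x : E) :
    Integrable (fun y => kap r (x - y) • v y) := by
  have h := (kap_cpt hr).convolutionExists_left (ContinuousLinearMap.lsmul ℝ ℝ)
    (μ := (volume : Measure E)) (kap_contDiff hr).continuous hv x
  have h2 := h.integrable_swap
  exact h2

theorem integrable_dkap {v : E → E} (hv : LocallyIntegrable v) {r : ℝ} (hr : 0 < r) (x : E) :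
    Integrable (fun y => ((ContinuousLinearMap.lsmul ℝ ℝ).precompL E)
      (fderiv ℝ (kap r) (x - y)) (v y)) := by
  have hc : HasCompactSupport (fderiv ℝ (kap r)) := (kap_cpt hr).fderiv (𝕜 := ℝ)
  have hco : Continuous (fderiv ℝ (kap r)) := (kap_contDiff hr).continuous_fderiv (by simp)
  have h := hc.convolutionExists_left ((ContinuousLinearMap.lsmul ℝ ℝ).precompL E)
    (μ := (volume : Measure E)) hco hv x
  exact h.integrable_swap

theorem fderiv_mol {a : E → E} (ha : LocallyIntegrable a) {r : ℝ} (hr : 0 < r) (x w : E) :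
    fderiv ℝ (mol r a) x w = ∫ y, fderiv ℝ (kap r) (x - y) w • a y := by
  rw [(hasFDerivAt_mol ha hr x).fderiv, convolution_eq_swap,
    ContinuousLinearMap.integral_apply (integrable_dkap ha hr x)]
  rfl

theorem integrable_dkap_apply {a : E → E} (ha : LocallyIntegrable a) {r : ℝ} (hr : 0 < r)
    (x w : E) : Integrable (fun y => fderiv ℝ (kap r) (x - y) w • a y) := by
  have h := (integrable_dkap ha hr x).apply_continuousLinearMap w
  exact h

theorem pd_mol {a : E → E} (ha : LocallyIntegrable a) {r : ℝ} (hr : 0 < r) (x : E)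
    (j k : Fin 3) : pd (mol r a) j k x = ∫ y, fderiv ℝ (kap r) (x - y) (bv j) * a y k := by
  unfold pd
  rw [fderiv_mol ha hr]
  have h := (EuclideanSpace.proj k : E →L[ℝ] ℝ).integral_comp_comm
    (integrable_dkap_apply ha hr x (bv j))
  exact h.symm

theorem integrable_pd {a : E → E} (ha : LocallyIntegrable a) {r : ℝ} (hr : 0 < r)
    (x : E) (j k : Fin 3) : Integrable (fun y => fderiv ℝ (kap r) (x - y) (bv j) * a y k) :=
  (EuclideanSpace.proj k : E →L[ℝ] ℝ).integrable_comp (integrable_dkap_apply ha hr x (bv j))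

theorem phi_test {r : ℝ} (hr : 0 < r) (x e : E) : Test (fun y => kap r (x - y) • e) := by
  constructor
  · exact ((kap_contDiff hr).comp (contDiff_const.sub contDiff_id)).smul contDiff_const
  · refine HasCompactSupport.of_support_subset_isCompact (isCompact_closedBall x r) ?_
    intro y hy
    rw [mem_closedBall, dist_comm, dist_eq_norm]
    by_contra h
    apply hy
    change kap r (x - y) • e = 0
    rw [kap_eq_zero hr (not_le.1 h).le, zero_smul]

theorem curl_phi {r : ℝ} (hr : 0 < r) (x e y : E) :
    curl (fun y => kap r (x - y) • e) y = cr (gradient (fun y => kap r (x - y)) y) e := by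
  have h1 : DifferentiableAt ℝ (fun y => kap r (x - y)) y :=
    (((kap_contDiff hr).comp (contDiff_const.sub contDiff_id)).differentiable (by simp)) y
  have h2 := curl_smul (ζ := fun y => kap r (x - y)) (A := fun _ => e) (x := y) h1
    (differentiableAt_const _)
  rw [h2]
  have h3 : curl (fun _ : E => e) y = 0 := by
    apply ext3 <;> simp [curl, pd]
  rw [h3]
  simp

theorem gradient_phi {r : ℝ} (hr : 0 < r) (x y : E) (j : Fin 3) :
    gradient (fun y => kap r (x - y)) y j = - fderiv ℝ (kap r) (x - y) (bv j) := by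
  rw [gradient_apply]
  have h1 : HasFDerivAt (fun y => kap r (x - y)) ((fderiv ℝ (kap r) (x - y)).comp
      (-(ContinuousLinearMap.id ℝ E))) y := by
    have h2 : HasFDerivAt (fun y : E => x - y) (-(ContinuousLinearMap.id ℝ E)) y :=
      (hasFDerivAt_id y).const_sub x
    exact (((kap_contDiff hr).differentiable (by simp)) (x - y)).hasFDerivAt.comp y h2
  rw [h1.fderiv]
  simp

theorem curl_mol {a v : E → E} (h : Pot a v) {r : ℝ} (hr : 0 < r) :
    curl (mol r a) = mol r v := by
  have ha : LocallyIntegrable a := h.memLp₁.locallyIntegrable (by norm_num)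
  have hv : LocallyIntegrable v := h.memLp₂.locallyIntegrable (by norm_num)
  funext x
  have hcomp : ∀ i : Fin 3, mol r v x i = ip v (fun y => kap r (x - y) • bv i) := by
    intro i
    unfold mol ip
    have h1 := (EuclideanSpace.proj i : E →L[ℝ] ℝ).integral_comp_comm
      (integrable_smul_kap hv hr x)
    refine h1.symm.trans ?_
    apply integral_congr_ae
    refine Eventually.of_forall fun y => ?_
    simp only [real_inner_smul_right]
    rw [inner_eq]
    fin_cases i <;> simp [bv]
  have hw : ∀ i : Fin 3, mol r v x i = ip a (curl (fun y => kap r (x - y) • bv i)) := by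
    intro i
    rw [hcomp, h.weak _ (phi_test hr x (bv i))]
  apply ext3
  · rw [curl_apply_zero, pd_mol ha hr, pd_mol ha hr, hw 0,
      ← integral_sub (integrable_pd ha hr x 1 2) (integrable_pd ha hr x 2 1)]
    unfold ip
    apply integral_congr_ae
    refine Eventually.of_forall fun y => ?_
    simp only
    rw [curl_phi hr, inner_eq]
    simp only [cr_apply_zero, cr_apply_one, cr_apply_two, gradient_phi hr]
    simp [bv]
    ring
  · rw [curl_apply_one, pd_mol ha hr, pd_mol ha hr, hw 1,
      ← integral_sub (integrable_pd ha hr x 2 0) (integrable_pd ha hr x 0 2)]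
    unfold ip
    apply integral_congr_ae
    refine Eventually.of_forall fun y => ?_
    simp only
    rw [curl_phi hr, inner_eq]
    simp only [cr_apply_zero, cr_apply_one, cr_apply_two, gradient_phi hr]
    simp [bv]
    ring
  · rw [curl_apply_two, pd_mol ha hr, pd_mol ha hr, hw 2,
      ← integral_sub (integrable_pd ha hr x 0 1) (integrable_pd ha hr x 1 0)]
    unfold ip
    apply integral_congr_ae
    refine Eventually.of_forall fun y => ?_
    simp only
    rw [curl_phi hr, inner_eq]
    simp only [cr_apply_zero, cr_apply_one, cr_apply_two, gradient_phi hr]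
    simp [bv]
    ring

/-- The inner product with a mollification tends to the inner product. -/
theorem ip_mol_tendsto_of (hM : ∀ v : E → E, MemLp v 2 →
    Tendsto (fun r => sq (fun x => mol r v x - v x)) (𝓝[>] 0) (𝓝 0))
    {v b : E → E} (hv : MemLp v 2) (hb : MemLp b 2) {R : ℝ} (hR : VanOff (closedBall 0 R) b) :
    Tendsto (fun r => ip v (mol r b)) (𝓝[>] 0) (𝓝 (ip v b)) := by
  rw [tendsto_iff_dist_tendsto_zero]
  have h1 : Tendsto (fun r => √(sq v) * √(sq (fun x => mol r b x - b x))) (𝓝[>] 0)
      (𝓝 (√(sq v) * √0)) :=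
    (((Real.continuous_sqrt.tendsto 0).comp (hM b hb))).const_mul _
  rw [Real.sqrt_zero, mul_zero] at h1
  refine squeeze_zero' (Eventually.of_forall fun _ => dist_nonneg) ?_ h1
  filter_upwards [self_mem_nhdsWithin] with r hr
  have hm := (mol_test hb hR hr).memLp
  rw [Real.dist_eq, ← ip_sub_right hv hm hb]
  exact abs_ip_le hv (hm.sub hb)

theorem pot_symm_of (hM : ∀ v : E → E, MemLp v 2 →
    Tendsto (fun r => sq (fun x => mol r v x - v x)) (𝓝[>] 0) (𝓝 0))
    {a v b w : E → E} (h : Pot a v) (h' : Pot b w) : ip v b = ip a w := by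
  obtain ⟨R, hR1, hR2⟩ := h'.bdd
  have h1 := ip_mol_tendsto_of hM h.memLp₂ h'.memLp₁ hR1
  have h2 := ip_mol_tendsto_of hM h.memLp₁ h'.memLp₂ hR2
  refine tendsto_nhds_unique h1 (h2.congr' ?_)
  filter_upwards [self_mem_nhdsWithin] with r hr
  rw [← curl_mol h' hr, h.weak _ (mol_test h'.memLp₁ hR1 hr)]

end Pool.Agent.Helper40.Curl
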