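import Pool.Agent.Helper40.Curl.KC
import Pool.Agent.Helper40.Curl.K3
import Pool.Agent.Helper22.Curl.M2
import Pool.Agent.Helper66.Curl.P1

/-! Packets C-KC and C-K3: closed forms. -/

open MeasureTheory Set Filter Topology Metric
open scoped ContDiff RealInnerProductSpace
open Pool.Agent.Helper38.Curl

namespace Pool.Agent.Helper40.Curl

theorem pot_symm {a v b w : E → E} (h : Pot a v) (h' : Pot b w) : ip v b = ip a w :=
  pot_symm_of (fun _ hv => Pool.Agent.Helper22.Curl.mol_tendsto hv) h h'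

theorem isMuOne_of_maximizer {Ω : Set E} (ho : IsOpen Ω) (hb : Bornology.IsBounded Ω) {Λ : ℝ}
    (hΛ : 0 < Λ)
    (hmax : ∀ A, TestIn Ω A → ip (curl A) A ≤ Λ * Pool.Agent.Helper38.Curl.sq (curl A))
    {u a : E → E}
    (hp : Pot a u) (hv : ∀ x, x ∉ Ω → u x = 0) (hs : Pool.Agent.Helper38.Curl.sq u = 3)
    (hh : ip u a = 3 * Λ)
    (hK : ∀ ε, 0 < ε → ∃ A, TestIn Ω A ∧
      Pool.Agent.Helper38.Curl.sq (fun x => curl A x - u x) < ε) :
    IsMuOne Ω Λ⁻¹ :=
  isMuOne_of_maximizer_of (fun h h' => pot_symm h h')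
    (fun hρ _ hv => Pool.Agent.Helper66.Curl.pot_exists hρ hv) ho hb hΛ hmax hp hv hs hh hK

end Pool.Agent.Helper40.Curl
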